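import Pool.Agent.Run7.h538.TP.Stm

/-! Project TP (helper538, MP_34deb4_co Q2), piece SIG (helper300): sign changes on the cycle. -/

set_option autoImplicit false

open Finset Matrix

namespace Run7.h300.TP

open Run7.h538.TP hiding flip

theorem succ_mod {a m : ℕ} (h : a < m) : (a + 1) % m = if a + 1 = m then 0 else a + 1 := by
  split_ifs with h1
  · rw [h1, Nat.mod_self]
  · exact Nat.mod_eq_of_lt (by omega)

/-- the signs on the cycle edges -/
theorem sign_key (m i a b : ℕ) (h3 : 3 ≤ m) (hi : i < m) (ha : a < m) (hb : b < m)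
    (hab : (a + 1) % m = b ∨ (b + 1) % m = a) (t : ℝ) :
    (if (a = i ∧ b = (i + 1) % m) ∨ (a = (i + 1) % m ∧ b = i) then
      -(if (a = 0 ∧ b = 1) ∨ (a = 1 ∧ b = 0) then -t else t)
      else (if (a = 0 ∧ b = 1) ∨ (a = 1 ∧ b = 0) then -t else t)) =
    (if 1 ≤ a ∧ a ≤ i then (-1 : ℝ) else 1) * t * (if 1 ≤ b ∧ b ≤ i then (-1 : ℝ) else 1) := by
  rw [succ_mod ha, succ_mod hb] at hab
  rw [succ_mod hi]
  by_cases h1 : i + 1 = m
  · rw [if_pos h1]
    by_cases h2 : a + 1 = m
    · by_cases h4 : b + 1 = m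
      · rw [if_pos h2, if_pos h4] at hab
        exfalso; omega
      · rw [if_pos h2, if_neg h4] at hab
        split_ifs <;> first | ring1 | (exfalso; omega)
    · by_cases h4 : b + 1 = m
      · rw [if_neg h2, if_pos h4] at hab
        split_ifs <;> first | ring1 | (exfalso; omega)
      · rw [if_neg h2, if_neg h4] at hab
        split_ifs <;> first | ring1 | (exfalso; omega)
  · rw [if_neg h1]
    by_cases h2 : a + 1 = m
    · by_cases h4 : b + 1 = m
      · rw [if_pos h2, if_pos h4] at hab
        exfalso; omega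
      · rw [if_pos h2, if_neg h4] at hab
        split_ifs <;> first | ring1 | (exfalso; omega)
    · by_cases h4 : b + 1 = m
      · rw [if_neg h2, if_pos h4] at hab
        split_ifs <;> first | ring1 | (exfalso; omega)
      · rw [if_neg h2, if_neg h4] at hab
        split_ifs <;> first | ring1 | (exfalso; omega)

/-- the diagonal signs -/
noncomputable def ee (m n i : ℕ) : Fin m ⊕ Fin n → ℝ
  | .inl a => if 1 ≤ a.val ∧ a.val ≤ i then -1 else 1
  | .inr _ => 1

theorem ee_sq (m n i : ℕ) (x : Fin m ⊕ Fin n) : ee m n i x * ee m n i x = 1 := by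
  rcases x with a | a
  · simp only [ee]
    split_ifs <;> norm_num
  · simp only [ee]
    norm_num

theorem flip_eq (m n : ℕ) (hm : 3 ≤ m) (B : Matrix (Fin m ⊕ Fin n) (Fin m ⊕ Fin n) ℝ)
    (hB : InS (tadpole m n) B) (i : Fin m) (x y : Fin m ⊕ Fin n) :
    (Run7.h538.TP.flip (Run7.h538.TP.flip B (.inl ⟨0, by omega⟩) (.inl ⟨1, by omega⟩)) (.inl i)
      (.inl ⟨(i.val + 1) % m, Nat.mod_lt _ (by omega)⟩)) x y =
    ee m n i.val x * B x y * ee m n i.val y := by
  have hne : i.val ≠ (i.val + 1) % m := by
    rw [succ_mod i.2]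
    split_ifs <;> omega
  rcases x with a | a <;> rcases y with b | b
  · simp only [Run7.h538.TP.flip, Matrix.of_apply, ee, Sum.inl.injEq, Fin.ext_iff]
    by_cases hab : a.val = b.val
    · have hab' : a = b := Fin.ext hab
      subst hab'
      have h1 : ¬ ((a.val = i.val ∧ a.val = (i.val + 1) % m) ∨
          (a.val = (i.val + 1) % m ∧ a.val = i.val)) := by
        rintro (⟨h, h'⟩ | ⟨h, h'⟩)
        · exact hne (h.symm.trans h')
        · exact hne (h'.symm.trans h)
      have h2 : ¬ ((a.val = 0 ∧ a.val = 1) ∨ (a.val = 1 ∧ a.val = 0)) := by omega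
      rw [if_neg h1, if_neg h2]
      have h3 := ee_sq m n i.val (.inl a)
      simp only [ee] at h3
      calc B (.inl a) (.inl a) = ((if 1 ≤ a.val ∧ a.val ≤ i.val then (-1 : ℝ) else 1) *
            (if 1 ≤ a.val ∧ a.val ≤ i.val then (-1 : ℝ) else 1)) * B (.inl a) (.inl a) := by
            rw [h3, one_mul]
        _ = _ := by ring
    · by_cases hadj : (a.val + 1) % m = b.val ∨ (b.val + 1) % m = a.val
      · exact sign_key m i.val a.val b.val hm i.2 a.2 b.2 hadj _
      · have h0 : B (.inl a) (.inl b) = 0 := by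
          by_contra hcon
          have h1 : (Sum.inl a : Fin m ⊕ Fin n) ≠ Sum.inl b := by
            intro h
            exact hab (congrArg Fin.val (Sum.inl.inj h))
          have h2 := (hB.2 _ _ h1).1 hcon
          rw [tadpole, SimpleGraph.fromRel_adj] at h2
          exact hadj h2.2
        rw [h0]
        simp
  · simp only [Run7.h538.TP.flip, Matrix.of_apply, ee, reduceCtorEq, false_and, and_false, or_self, if_false]
    by_cases ha : 1 ≤ a.val ∧ a.val ≤ i.val
    · have h0 : B (.inl a) (.inr b) = 0 := by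
        by_contra hcon
        have h2 := (hB.2 _ _ (by simp)).1 hcon
        rw [tadpole, SimpleGraph.fromRel_adj] at h2
        have h3 : (a.val = 0 ∧ b.val = 0) ∨ False := h2.2
        rcases h3 with h3 | h3
        · omega
        · exact h3
      rw [h0]
      simp
    · rw [if_neg ha, one_mul, mul_one]
  · simp only [Run7.h538.TP.flip, Matrix.of_apply, ee, reduceCtorEq, false_and, and_false, or_self, if_false]
    by_cases hb : 1 ≤ b.val ∧ b.val ≤ i.val
    · have h0 : B (.inr a) (.inl b) = 0 := by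
        by_contra hcon
        have h2 := (hB.2 _ _ (by simp)).1 hcon
        rw [tadpole, SimpleGraph.fromRel_adj] at h2
        have h3 : False ∨ (b.val = 0 ∧ a.val = 0) := h2.2
        rcases h3 with h3 | h3
        · exact h3
        · omega
      rw [h0]
      simp
    · rw [if_neg hb, one_mul, mul_one]
  · simp only [Run7.h538.TP.flip, Matrix.of_apply, ee, reduceCtorEq, and_self, or_self, if_false]
    rw [one_mul, mul_one]

theorem t_SIG : S_SIG := by
  intro m n hm B μ hB hD i
  obtain ⟨u, v, hli, hu, hv⟩ := hD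
  obtain ⟨C, hC⟩ : ∃ C, C = Run7.h538.TP.flip (Run7.h538.TP.flip B (.inl ⟨0, by omega⟩) (.inl ⟨1, by omega⟩)) (.inl i)
      (.inl ⟨(i.val + 1) % m, Nat.mod_lt _ (by omega)⟩) := ⟨_, rfl⟩
  have hCe : ∀ x y, C x y = ee m n i.val x * B x y * ee m n i.val y := by
    intro x y
    rw [hC]
    exact flip_eq m n hm B hB i x y
  rw [← hC]
  have hmv : ∀ w : Fin m ⊕ Fin n → ℝ, B *ᵥ w = μ • w →
      C *ᵥ (fun x => ee m n i.val x * w x) = μ • (fun x => ee m n i.val x * w x) := by
    intro w hw
    funext x
    have h1 : (B *ᵥ w) x = μ * w x := by rw [hw]; rfl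
    show ∑ y, C x y * (ee m n i.val y * w y) = μ * (ee m n i.val x * w x)
    have h2 : ∀ y, C x y * (ee m n i.val y * w y) = ee m n i.val x * (B x y * w y) := by
      intro y
      rw [hCe]
      calc ee m n i.val x * B x y * ee m n i.val y * (ee m n i.val y * w y)
          = ee m n i.val x * B x y * (ee m n i.val y * ee m n i.val y) * w y := by ring
        _ = _ := by rw [ee_sq]; ring
    simp_rw [h2]
    rw [← Finset.mul_sum]
    have h3 : ∑ y, B x y * w y = μ * w x := h1
    rw [h3]
    ring
  refine ⟨fun x => ee m n i.val x * u x, fun x => ee m n i.val x * v x, ?_, hmv u hu, hmv v hv⟩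
  rw [LinearIndependent.pair_iff] at hli ⊢
  intro s t hst
  refine hli s t ?_
  funext x
  have h1 := congrFun hst x
  simp only [Pi.add_apply, Pi.smul_apply, smul_eq_mul, Pi.zero_apply] at h1 ⊢
  have h2 : ee m n i.val x * (s * (ee m n i.val x * u x) + t * (ee m n i.val x * v x)) =
      (ee m n i.val x * ee m n i.val x) * (s * u x + t * v x) := by ring
  rw [h1, mul_zero, ee_sq, one_mul] at h2
  exact h2.symm

end Run7.h300.TP
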